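import Pool.Agent.H516.PCF.All

/-! The local theorem of the PCF project: `S_LOC` from its hypotheses. -/

namespace Pool.Agent.H707.PCF

open Polynomial Pool.Agent.H516.PCF

variable {F : Type} [Field F]

theorem loc (hPATH : S_PATH) (hCORE : S_CORE) (hCOMB : S_COMB) (hREG : S_REG) (hZ0 : S_Z0)
    (hDIR : S_DIR) (hTWO : S_TWO) (hOFIB : S_OFIB) (_hFIB : S_FIB) (hNAB : S_NAB)
    (_hGVB : S_GVB) : Pool.Agent.H516.PCF.S_LOC := by
  classical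
  intro F _ _ _ p w d P Q A O L
  obtain ⟨-, -, -, -, -, hsym, -, htri, hstr, -, -, -⟩ := hNAB F p w L.prime L.na
  -- choice of `κ`
  have hP := hPATH F p w d P Q A O L
  choose! κ hκ using hP
  have hκA : ∀ γ ∈ O, κ γ ∈ A := fun γ hγ => (hκ γ hγ).1
  have hκP : ∀ γ ∈ O, ∀ V : ℝ, ∃ n β c, PathD w d P Q γ (κ γ) V n β c := fun γ hγ => (hκ γ hγ).2
  have hFC : ∀ γ ∈ O, FC w O γ (κ γ) := fun γ hγ =>
    hCORE F p w d P Q A O L γ hγ (κ γ) (hκA γ hγ) (hκP γ hγ)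
  obtain ⟨E, κ₀, t, hEO, hEinf, hEκ, hEt⟩ :=
    hCOMB F p w L.prime L.na A O κ L.post.fin L.inf L.disj hκA hFC
  obtain ⟨e₀, he₀⟩ := hEinf.nonempty
  have hκ₀A : κ₀ ∈ A := by rw [← hEκ e₀ he₀]; exact hκA e₀ (hEO he₀)
  have hne : ∀ γ ∈ E, γ ≠ κ₀ := fun γ hγ h => L.disj γ (hEO hγ) (h ▸ hκ₀A)
  -- choice of `γ₁`
  have hγ₁ : ∃ γ₁ ∈ E, w (γ₁ - κ₀) ≤ t := by
    by_contra hcon
    push Not at hcon
    obtain ⟨e₁, he₁, hee⟩ := hEinf.nontrivial.exists_ne e₀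
    have h1 := hcon e₀ he₀
    have h2 := hcon e₁ he₁
    have h3 := htri e₁ κ₀ e₀ (hne e₁ he₁) (hne e₀ he₀).symm hee
    rw [hEt e₁ he₁ e₀ he₀ hee, hsym κ₀ e₀ (hne e₀ he₀).symm] at h3
    exact absurd h3 (not_le.2 (lt_min h2 h1))
  obtain ⟨γ₁, hγ₁E, hγ₁t⟩ := hγ₁
  obtain ⟨R, hR⟩ := hREG F p w d P Q A O L γ₁ κ₀
  have hpath := hκP γ₁ (hEO hγ₁E) (R + t + 1)
  rw [hEκ γ₁ hγ₁E] at hpath
  obtain ⟨n, β, c, hpd⟩ := hpath
  obtain ⟨a, ρ, hac, hρ, hvf₁, hvf, hcnt⟩ :=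
    hZ0 F p w d P Q A O L γ₁ (hEO hγ₁E) κ₀ hκ₀A t hγ₁t n β c _ hpd
  have hRρ : -R ≤ ρ := le_trans (hR n β c _ hpd) hρ
  have hDF : R + t + 1 ≤ DF w d P Q n a ρ := by
    have h := hpd.2.2.2.2 ρ hρ
    rcases hac with rfl | rfl
    · exact h.1
    · exact h.2
  have hvfE : ∀ γ ∈ E, vf w d P Q n γ a ρ = t := by
    intro γ hγ
    by_cases h : γ = γ₁
    · rw [h]; exact hvf₁
    · exact hvf γ h (hEt γ hγ γ₁ hγ₁E h)
  obtain ⟨⟨γ₀, hdir⟩, hpair⟩ :=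
    hDIR F p w d P Q A O L n a ρ t E hEO hEinf hEt hvfE γ₁ hγ₁E hcnt
  choose! b hb using hdir
  -- the bad elements
  set T : Set F := {z | z ∈ (qn d P Q n).roots} ∪ A with hT
  have hTfin : T.Finite := by
    refine Set.Finite.union ?_ L.post.fin
    have : {z | z ∈ (qn d P Q n).roots} = ((qn d P Q n).rootSet F) := by
      ext z
      simp [Polynomial.rootSet, Polynomial.aroots]
    rw [this]
    exact Polynomial.rootSet_finite _ _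
  set E' : Set F := E \ {γ₀} with hE'
  have hE'inf : E'.Infinite := hEinf.sdiff (Set.finite_singleton _)
  have hbE' : ∀ γ ∈ E', Dir w d P Q n a ρ γ (b γ) := fun γ hγ => hb γ hγ.1 hγ.2
  set B : Set F := {γ | γ ∈ E' ∧ ∃ z ∈ T, z = b γ ∨ ρ < w (b γ - z)} with hB
  have hBfin : B.Finite := by
    have hsub : B ⊆ ⋃ z ∈ T, {γ | γ ∈ E' ∧ (z = b γ ∨ ρ < w (b γ - z))} := by
      rintro γ ⟨hγ, z, hz, hzz⟩
      exact Set.mem_biUnion hz ⟨hγ, hzz⟩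
    refine Set.Finite.subset (Set.Finite.biUnion hTfin ?_) hsub
    intro z _
    refine Set.Subsingleton.finite ?_
    rintro γ ⟨hγ, hγz⟩ γ' ⟨hγ', hγz'⟩
    by_contra hne'
    obtain ⟨hbb, hbρ⟩ := hpair γ hγ.1 γ' hγ'.1 hne' (b γ) (b γ') (hbE' γ hγ) (hbE' γ' hγ')
    by_cases h1 : z = b γ
    · have h2 : z ≠ b γ' := by rw [h1]; exact hbb
      have h3 : ρ < w (b γ' - z) := by
        rcases hγz' with h | h
        · exact absurd h h2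
        · exact h
      rw [h1, hsym _ _ hbb.symm, hbρ] at h3
      exact lt_irrefl _ h3
    · have h2 : ρ < w (b γ - z) := by
        rcases hγz with h | h
        · exact absurd h h1
        · exact h
      by_cases h3 : z = b γ'
      · rw [h3, hbρ] at h2
        exact lt_irrefl _ h2
      · have h4 : ρ < w (b γ' - z) := by
          rcases hγz' with h | h
          · exact absurd h h3
          · exact h
        have h5 := htri (b γ) z (b γ') (Ne.symm h1) h3 hbb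
        rw [hbρ, hsym z (b γ') h3] at h5
        exact absurd h5 (not_le.2 (lt_min h2 h4))
  have hGinf : (E' \ B).Infinite := hE'inf.sdiff hBfin
  obtain ⟨s, hs, hs3⟩ := hGinf.exists_subset_card_eq 3
  obtain ⟨γ, γ', γ'', h12, h13, h23, rfl⟩ := Finset.card_eq_three.1 hs3
  have hγ : γ ∈ E' \ B := hs (by simp)
  have hγ' : γ' ∈ E' \ B := hs (by simp)
  have hγ'' : γ'' ∈ E' \ B := hs (by simp)
  have hgood : ∀ g ∈ E' \ B, ∀ z ∈ T, z ≠ b g ∧ w (b g - z) ≤ ρ := by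
    intro g hg z hz
    constructor
    · intro h
      exact hg.2 ⟨hg.1, z, hz, Or.inl h⟩
    · by_contra h
      exact hg.2 ⟨hg.1, z, hz, Or.inr (not_le.1 h)⟩
  have hO : ∀ g ∈ O, ∀ x ∈ fib d P Q n g, x ∈ O := (hOFIB F p w d P Q A O L n).1
  have hbO : ∀ g ∈ E', b g ∈ O := fun g hg => hO g (hEO hg.1) _ (hbE' g hg).1
  obtain ⟨hbb', hbρ'⟩ := hpair γ hγ.1.1 γ' hγ'.1.1 h12 (b γ) (b γ') (hbE' γ hγ.1) (hbE' γ' hγ'.1)
  obtain ⟨hbb'', hbρ''⟩ :=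
    hpair γ hγ.1.1 γ'' hγ''.1.1 h13 (b γ) (b γ'') (hbE' γ hγ.1) (hbE' γ'' hγ''.1)
  obtain ⟨hbb3, hbρ3⟩ :=
    hpair γ' hγ'.1.1 γ'' hγ''.1.1 h23 (b γ') (b γ'') (hbE' γ' hγ'.1) (hbE' γ'' hγ''.1)
  have hcnt0 : cnt w (qn d P Q n) (b γ) ρ = 0 := by
    unfold cnt
    rw [Multiset.card_eq_zero, Multiset.filter_eq_nil]
    intro z hz hzz
    have h := hgood γ hγ z (Or.inl hz)
    rcases hzz with h1 | h1
    · exact h.1 h1
    · exact absurd h1 (not_lt.2 h.2)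
  obtain ⟨b₁, hb₁, b₂, hb₂, hb12, hd1, hd2, hρ12⟩ :=
    hTWO F p w d P Q A O L n a ρ t R (R + t + 1) hRρ hDF (by linarith) γ (hEO hγ.1.1)
      (hvfE γ hγ.1.1) (b γ) (hbE' γ hγ.1) hcnt0
  have hb₁O : b₁ ∈ O := hO γ (hEO hγ.1.1) b₁ hb₁
  have hb₂O : b₂ ∈ O := hO γ (hEO hγ.1.1) b₂ hb₂
  -- distances
  have key : ∀ u c', (u = b γ ∨ ρ < w (b γ - u)) → b γ ≠ c' → w (b γ - c') = ρ →
      u ≠ c' ∧ w (c' - u) = ρ := by
    intro u c' hu hc hcρ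
    have hcρ' : w (c' - b γ) = ρ := by rw [hsym c' (b γ) hc.symm]; exact hcρ
    by_cases h : u = b γ
    · rw [h]; exact ⟨hc, hcρ'⟩
    · have h1 : ρ < w (b γ - u) := by
        rcases hu with h' | h'
        · exact absurd h' h
        · exact h'
      have h2 := hstr c' (b γ) u hc.symm (Ne.symm h) (by rw [hcρ']; exact h1)
      exact ⟨h2.1.symm, h2.2.trans hcρ'⟩
  obtain ⟨k1, k1'⟩ := key b₁ (b γ') hd1 hbb' hbρ'
  obtain ⟨k2, k2'⟩ := key b₂ (b γ') hd2 hbb' hbρ'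
  obtain ⟨k3, k3'⟩ := key b₁ (b γ'') hd1 hbb'' hbρ''
  have k4 : w (b γ'' - b γ') = ρ := by rw [hsym _ _ hbb3.symm]; exact hbρ3
  have k5 : w (b₂ - b γ') = ρ := by rw [hsym _ _ k2]; exact k2'
  have k6 : ρ < w (b₂ - b₁) := by rw [hsym _ _ hb12.symm]; exact hρ12
  -- the point `κ' = κ b₁`
  have hκ' : κ b₁ ∈ A := hκA b₁ hb₁O
  have hκ'T : κ b₁ ∈ T := Or.inr hκ'
  obtain ⟨m1, m1'⟩ := hgood γ hγ _ hκ'T
  obtain ⟨m2, m2'⟩ := hgood γ' hγ' _ hκ'T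
  have hκb : κ b₁ ≠ b₁ := fun h => L.disj b₁ hb₁O (h ▸ hκ')
  have m1'' : w (κ b₁ - b γ) ≤ ρ := by rw [hsym _ _ m1]; exact m1'
  have m2'' : w (κ b₁ - b γ') ≤ ρ := by rw [hsym _ _ m2]; exact m2'
  have m3 : w (κ b₁ - b₁) = w (κ b₁ - b γ) := by
    by_cases h : b₁ = b γ
    · rw [← h]
    · have h1 : ρ < w (b γ - b₁) := by
        rcases hd1 with h' | h'
        · exact absurd h' h
        · exact h'
      exact (hstr (κ b₁) (b γ) b₁ m1 (Ne.symm h) (lt_of_le_of_lt m1'' h1)).2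
  have m4 : w (κ b₁ - b γ) = w (κ b₁ - b γ') := by
    rcases lt_or_eq_of_le m1'' with h | h
    · exact ((hstr (κ b₁) (b γ) (b γ') m1 hbb' (by rw [hbρ']; exact h)).2).symm
    · rcases lt_or_eq_of_le m2'' with h' | h'
      · exact (hstr (κ b₁) (b γ') (b γ) m2 hbb'.symm
          (by rw [hsym _ _ hbb'.symm, hbρ']; exact h')).2
      · rw [h, h']
  refine hFC b₁ hb₁O (b γ') (hbO γ' hγ'.1) b₂ hb₂O (b γ'') (hbO γ'' hγ''.1) k1.symm hb12.symm k2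
    k3.symm hbb3.symm ⟨?_, ?_⟩
  · rw [k3', k4, k5]
    linarith
  · rw [k3', k4, m3, m4]
    linarith

end Pool.Agent.H707.PCF
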