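import Pool.Agent.H516.PCF.All
import Pool.Agent.H516.PCF.StmF

/-! Normalisation of the PCF project: `S_NORM` from `S_CONJ`, `S_WDEG`. -/

namespace Pool.Agent.H707.PCF

open Polynomial Pool.Agent.H516.PCF

section

variable {k : Type} [Field k]

theorem rmap_coe_eq {d : ℕ} {P Q : k[X]} {x : k} (h : Q.eval x = 0) :
    rmap d P Q (x : OnePoint k) = OnePoint.infty := by
  classical
  change (if Q.eval x = 0 then OnePoint.infty else ((P.eval x / Q.eval x : k) : OnePoint k)) = _
  rw [if_pos h]

theorem rmap_coe_ne {d : ℕ} {P Q : k[X]} {x : k} (h : Q.eval x ≠ 0) :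
    rmap d P Q (x : OnePoint k) = ((P.eval x / Q.eval x : k) : OnePoint k) := by
  classical
  change (if Q.eval x = 0 then OnePoint.infty else ((P.eval x / Q.eval x : k) : OnePoint k)) = _
  rw [if_neg h]

theorem rmap_infty_eq {d : ℕ} {P Q : k[X]} (h : Q.coeff d = 0) :
    rmap d P Q OnePoint.infty = OnePoint.infty := by
  classical
  change (if Q.coeff d = 0 then OnePoint.infty else ((P.coeff d / Q.coeff d : k) : OnePoint k)) = _
  rw [if_pos h]

theorem rmap_infty_ne {d : ℕ} {P Q : k[X]} (h : Q.coeff d ≠ 0) :
    rmap d P Q OnePoint.infty = ((P.coeff d / Q.coeff d : k) : OnePoint k) := by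
  classical
  change (if Q.coeff d = 0 then OnePoint.infty else ((P.coeff d / Q.coeff d : k) : OnePoint k)) = _
  rw [if_neg h]

theorem isCrit_coe {d : ℕ} {P Q : k[X]} {x : k} :
    IsCrit d P Q (x : OnePoint k) ↔ (wr P Q).eval x = 0 := Iff.rfl

theorem isCrit_infty {d : ℕ} {P Q : k[X]} :
    IsCrit d P Q OnePoint.infty ↔ (wr P Q).coeff (2 * d - 2) = 0 := Iff.rfl

open Classical in
/-- the map `z ↦ 1 / (z - q)` -/
noncomputable def mf (q : k) (z : OnePoint k) : OnePoint k :=
  OnePoint.elim z ((0 : k) : OnePoint k)
    (fun x => if x = q then OnePoint.infty else (((x - q)⁻¹ : k) : OnePoint k))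

open Classical in
/-- its inverse -/
noncomputable def mi (q : k) (z : OnePoint k) : OnePoint k :=
  OnePoint.elim z ((q : k) : OnePoint k)
    (fun y => if y = 0 then OnePoint.infty else ((q + y⁻¹ : k) : OnePoint k))

theorem mf_infty (q : k) : mf q OnePoint.infty = ((0 : k) : OnePoint k) := rfl

theorem mf_self (q : k) : mf q (q : OnePoint k) = OnePoint.infty := by
  classical
  change (if q = q then OnePoint.infty else (((q - q)⁻¹ : k) : OnePoint k)) = _
  rw [if_pos rfl]

theorem mf_ne {q x : k} (h : x ≠ q) : mf q (x : OnePoint k) = (((x - q)⁻¹ : k) : OnePoint k) := by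
  classical
  change (if x = q then OnePoint.infty else (((x - q)⁻¹ : k) : OnePoint k)) = _
  rw [if_neg h]

theorem mi_infty (q : k) : mi q OnePoint.infty = (q : OnePoint k) := rfl

theorem mi_zero (q : k) : mi q ((0 : k) : OnePoint k) = OnePoint.infty := by
  classical
  change (if (0 : k) = 0 then OnePoint.infty else ((q + (0 : k)⁻¹ : k) : OnePoint k)) = _
  rw [if_pos rfl]

theorem mi_ne {q y : k} (h : y ≠ 0) : mi q (y : OnePoint k) = ((q + y⁻¹ : k) : OnePoint k) := by
  classical
  change (if y = 0 then OnePoint.infty else ((q + y⁻¹ : k) : OnePoint k)) = _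
  rw [if_neg h]

theorem mi_mf (q : k) (z : OnePoint k) : mi q (mf q z) = z := by
  induction z using OnePoint.rec with
  | infty => rw [mf_infty, mi_zero]
  | coe x =>
    by_cases h : x = q
    · rw [h, mf_self, mi_infty]
    · rw [mf_ne h, mi_ne (inv_ne_zero (sub_ne_zero.2 h)), inv_inv, add_sub_cancel]

theorem mf_mi (q : k) (z : OnePoint k) : mf q (mi q z) = z := by
  induction z using OnePoint.rec with
  | infty => rw [mi_infty, mf_self]
  | coe y =>
    by_cases h : y = 0
    · rw [h, mi_zero, mf_infty]
    · have h' : q + y⁻¹ ≠ q := by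
        intro h2
        exact inv_ne_zero h (by simpa using h2)
      rw [mi_ne h, mf_ne h', add_sub_cancel_left, inv_inv]

/-- the equivalence -/
noncomputable def me (q : k) : OnePoint k ≃ OnePoint k :=
  ⟨mf q, mi q, mi_mf q, mf_mi q⟩

theorem ct_coeff_mem (E : Subfield k) {q : k} (hq : q ∈ E) (d : ℕ) {R : k[X]}
    (hR : ∀ i, R.coeff i ∈ E) (i : ℕ) : (ct d q R).coeff i ∈ E := by
  unfold ct
  rw [coeff_reflect, taylor_coeff, eval_eq_sum_range]
  refine Subfield.sum_mem E fun j _ => ?_
  rw [hasseDeriv_coeff]
  exact E.mul_mem (E.mul_mem (natCast_mem E _) (hR _)) (E.pow_mem hq _)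

end

theorem norm (hCONJ : S_CONJ) (hWDEG : S_WDEG) : Pool.Agent.H516.PCF.S_NORM := by
  intro k _ _ _ d P Q hrat
  have hd := hrat.two_le
  have hPd : P.natDegree ≤ d := by rw [← hrat.deg]; exact le_max_left _ _
  have hQd : Q.natDegree ≤ d := by rw [← hrat.deg]; exact le_max_right _ _
  by_cases hQc : Q.coeff d = 0
  · -- infinity is fixed
    have hQlt : Q.natDegree < d := by
      rcases lt_or_eq_of_le hQd with h | h
      · exact h
      · exfalso
        have h1 : Q.leadingCoeff = 0 := by rw [leadingCoeff, h]; exact hQc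
        rw [leadingCoeff_eq_zero] at h1
        rw [h1, natDegree_zero] at h
        omega
    have hPeq : P.natDegree = d := by
      have h := hrat.deg
      rcases max_choice P.natDegree Q.natDegree with h1 | h1
      · rw [h1] at h; exact h
      · rw [h1] at h; omega
    have hQ0 : Q ≠ 0 := by
      intro h
      have h1 := hrat.cop
      rw [h, isCoprime_zero_right] at h1
      have h2 := natDegree_eq_zero_of_isUnit h1
      omega
    refine ⟨P, Q, Equiv.refl _, 0, ⟨hd, hPeq, hQlt, hQ0, hrat.cop⟩, fun z => rfl, fun z => Iff.rfl,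
      ?_⟩
    intro E _ hP hQ
    refine ⟨fun i => ⟨hP i, hQ i⟩, ?_, ?_⟩
    · intro x hx y hxy
      have h : x = y := OnePoint.coe_injective hxy
      rw [← h]; exact hx
    · intro y hy
      exact absurd hy (OnePoint.infty_ne_coe y)
  · -- move a fixed point to infinity
    have hdeg : (P - X * Q).natDegree = d + 1 := by
      refine le_antisymm ?_ (le_natDegree_of_ne_zero ?_)
      · refine (natDegree_sub_le _ _).trans (max_le (by omega) ?_)
        refine natDegree_mul_le.trans ?_
        rw [natDegree_X]; omega
      · rw [coeff_sub, coeff_X_mul, coeff_eq_zero_of_natDegree_lt (by omega : P.natDegree < d + 1),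
          zero_sub]
        exact neg_ne_zero.2 hQc
    have hroot : ∃ q, (P - X * Q).IsRoot q := by
      refine IsAlgClosed.exists_root _ ?_
      intro h
      have h1 : (P - X * Q).natDegree = 0 := natDegree_eq_of_degree_eq_some (by rw [h]; rfl)
      rw [hdeg] at h1
      exact absurd h1 (Nat.succ_ne_zero d)
    obtain ⟨q, hq⟩ := hroot
    have hPq : P.eval q = q * Q.eval q := by
      have h : (P - X * Q).eval q = 0 := hq
      rw [eval_sub, eval_mul, eval_X] at h
      exact sub_eq_zero.1 h
    have hcop : ∀ x, ¬ (P.eval x = 0 ∧ Q.eval x = 0) := by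
      rintro x ⟨h1, h2⟩
      obtain ⟨u, v, huv⟩ := hrat.cop
      have h := congrArg (eval x) huv
      rw [eval_add, eval_mul, eval_mul, h1, h2, mul_zero, mul_zero, add_zero, eval_one] at h
      exact zero_ne_one h
    have hQq : Q.eval q ≠ 0 := fun h => hcop q ⟨by rw [hPq, h, mul_zero], h⟩
    obtain ⟨hN, hlead, hcd, hval, hP0, hQ0, hw0⟩ := hCONJ k d P Q q hrat hPq hQq
    refine ⟨Pt d P Q q, Qt d P Q q, me q, q, hN, ?_, ?_, ?_⟩
    · intro z
      change mf q (rmap d P Q z) = rmap d (Pt d P Q q) (Qt d P Q q) (mf q z)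
      induction z using OnePoint.rec with
      | infty =>
        rw [rmap_infty_ne hQc, mf_infty]
        by_cases h : P.coeff d / Q.coeff d = q
        · have h1 : (Qt d P Q q).eval 0 = 0 := by
            rw [hQ0, ← h, div_mul_cancel₀ _ hQc, sub_self]
          rw [h, mf_self, rmap_coe_eq h1]
        · have h2 : P.coeff d - q * Q.coeff d ≠ 0 := by
            intro h3
            exact h (by rw [div_eq_iff hQc]; exact sub_eq_zero.1 h3)
          have h1 : (Qt d P Q q).eval 0 ≠ 0 := by rw [hQ0]; exact h2
          rw [mf_ne h, rmap_coe_ne h1, hP0, hQ0]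
          congr 1
          have h4 : P.coeff d / Q.coeff d - q ≠ 0 := sub_ne_zero.2 h
          field_simp
      | coe x =>
        by_cases hx : x = q
        · subst hx
          have h1 : P.eval x / Q.eval x = x := by rw [div_eq_iff hQq]; exact hPq
          rw [rmap_coe_ne hQq, h1, mf_self,
            rmap_infty_eq (coeff_eq_zero_of_natDegree_lt hN.degQ)]
        · have hy : (x - q)⁻¹ ≠ 0 := inv_ne_zero (sub_ne_zero.2 hx)
          obtain ⟨v1, v2, -⟩ := hval _ hy
          rw [inv_inv, add_sub_cancel] at v1 v2
          have hyd : (x - q)⁻¹ ^ d ≠ 0 := pow_ne_zero _ hy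
          rw [mf_ne hx]
          by_cases hQx : Q.eval x = 0
          · have hPx : P.eval x ≠ 0 := fun h => hcop x ⟨h, hQx⟩
            have h1 : (Qt d P Q q).eval (x - q)⁻¹ ≠ 0 := by
              rw [v2, hQx, mul_zero, sub_zero]; exact mul_ne_zero hyd hPx
            rw [rmap_coe_eq hQx, mf_infty, rmap_coe_ne h1, v1, hQx, mul_zero, zero_div]
          · rw [rmap_coe_ne hQx]
            by_cases h : P.eval x / Q.eval x = q
            · have h1 : (Qt d P Q q).eval (x - q)⁻¹ = 0 := by
                rw [v2, ← (div_eq_iff hQx).1 h, sub_self, mul_zero]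
              rw [h, mf_self, rmap_coe_eq h1]
            · have h2 : P.eval x - q * Q.eval x ≠ 0 := by
                intro h3
                exact h (by rw [div_eq_iff hQx]; exact sub_eq_zero.1 h3)
              have h1 : (Qt d P Q q).eval (x - q)⁻¹ ≠ 0 := by
                rw [v2]; exact mul_ne_zero hyd h2
              rw [mf_ne h, rmap_coe_ne h1, v1, v2, mul_div_mul_left _ _ hyd]
              congr 1
              have h4 : P.eval x / Q.eval x - q ≠ 0 := sub_ne_zero.2 h
              field_simp
    · intro z
      change IsCrit d P Q z ↔ IsCrit d (Pt d P Q q) (Qt d P Q q) (mf q z)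
      induction z using OnePoint.rec with
      | infty => rw [mf_infty, isCrit_infty, isCrit_coe, hw0]
      | coe x =>
        by_cases hx : x = q
        · subst hx
          rw [mf_self, isCrit_coe, isCrit_infty]
          obtain ⟨-, w2, w3⟩ := hWDEG k (Pt d P Q x) (Qt d P Q x) hN.Q0
            (by rw [hN.degP]; exact hN.degQ)
          rw [hN.degP] at w2 w3
          have hQlt := hN.degQ
          by_cases he : (Qt d P Q x).natDegree = d - 1
          · have h1 : (wr (Pt d P Q x) (Qt d P Q x)).natDegree = 2 * d - 2 := by omega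
            have h2 : (Qt d P Q x).coeff (d - 1) ≠ 0 := by
              rw [← he]; exact leadingCoeff_ne_zero.2 hN.Q0
            rw [hcd] at h2
            have h3 : (wr P Q).eval x ≠ 0 := fun h => h2 (by rw [h, zero_div])
            have h4 : (wr (Pt d P Q x) (Qt d P Q x)).coeff (2 * d - 2) ≠ 0 := by
              rw [← h1]
              change (wr (Pt d P Q x) (Qt d P Q x)).leadingCoeff ≠ 0
              rw [w3, he]
              refine mul_ne_zero (mul_ne_zero ?_ ?_) (leadingCoeff_ne_zero.2 hN.Q0)
              · rw [Nat.cast_sub (by omega : 1 ≤ d), Nat.cast_one, sub_sub_cancel]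
                exact one_ne_zero
              · rw [hlead]; exact hQq
            exact ⟨fun h => absurd h h3, fun h => absurd h h4⟩
          · have h1 : (Qt d P Q x).coeff (d - 1) = 0 :=
              coeff_eq_zero_of_natDegree_lt (by omega)
            have h2 : (wr P Q).eval x = 0 := by
              rw [hcd, div_eq_zero_iff] at h1
              rcases h1 with h | h
              · exact h
              · exact absurd h hQq
            have h3 : (wr (Pt d P Q x) (Qt d P Q x)).coeff (2 * d - 2) = 0 :=
              coeff_eq_zero_of_natDegree_lt (by omega)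
            exact ⟨fun _ => h3, fun _ => h2⟩
        · have hy : (x - q)⁻¹ ≠ 0 := inv_ne_zero (sub_ne_zero.2 hx)
          obtain ⟨-, -, v3⟩ := hval _ hy
          rw [inv_inv, add_sub_cancel] at v3
          rw [mf_ne hx, isCrit_coe, isCrit_coe, v3, mul_eq_zero]
          exact ⟨fun h => Or.inr h, fun h => h.resolve_left (pow_ne_zero _ hy)⟩
    · intro E hqE hP hQ
      refine ⟨fun i => ⟨ct_coeff_mem E hqE d hQ i, ?_⟩, ?_, ?_⟩
      · unfold Qt
        rw [coeff_sub, coeff_C_mul]
        exact E.sub_mem (ct_coeff_mem E hqE d hP i) (E.mul_mem hqE (ct_coeff_mem E hqE d hQ i))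
      · intro x hx y hxy
        have hxy' : mf q (x : OnePoint k) = (y : OnePoint k) := hxy
        by_cases h : x = q
        · rw [h, mf_self] at hxy'
          exact absurd hxy' (OnePoint.infty_ne_coe y)
        · rw [mf_ne h] at hxy'
          rw [← OnePoint.coe_injective hxy']
          exact E.inv_mem (E.sub_mem hx hqE)
      · intro y hy
        have hy' : ((0 : k) : OnePoint k) = (y : OnePoint k) := hy
        rw [← OnePoint.coe_injective hy']
        exact E.zero_mem

end Pool.Agent.H707.PCF
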