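import Pool.Agent.H516.PCF.All

set_option autoImplicit false

/-!
Pigeonhole in the product formula of a number field.
-/

namespace Pool.Agent.H707.PCF

open NumberField

theorem pf : Pool.Agent.H516.PCF.S_PF := by
  intro K _ _ Θ e he N c hN hc hφ
  classical
  by_contra hcon
  push Not at hcon
  choose C hC using hcon
  -- the finite set of places
  have hfin : {v : FinitePlace K | ∃ θ ∈ Θ, v ((θ : Kˣ) : K) ≠ 1}.Finite := by
    have h1 : {v : FinitePlace K | ∃ θ ∈ Θ, v ((θ : Kˣ) : K) ≠ 1} =
        ⋃ θ ∈ (Θ : Set Kˣ), Function.mulSupport fun v : FinitePlace K => v ((θ : Kˣ) : K) := by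
      ext v
      simp [Function.mem_mulSupport]
    rw [h1]
    exact Θ.finite_toSet.biUnion fun θ _ => FinitePlace.hasFiniteMulSupport θ.ne_zero
  set S : Finset (FinitePlace K) := hfin.toFinset with hS
  have hout : ∀ v : FinitePlace K, v ∉ S → ∀ u ∈ Subgroup.closure (Θ : Set Kˣ),
      v ((u : Kˣ) : K) = 1 := by
    intro v hv u hu
    rw [hS, Set.Finite.mem_toFinset] at hv
    refine Subgroup.closure_induction (p := fun u _ => v ((u : Kˣ) : K) = 1) ?_ ?_ ?_ ?_ hu
    · intro θ hθ
      by_contra h1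
      exact hv ⟨θ, hθ, h1⟩
    · rw [Units.val_one, map_one]
    · intro x y _ _ hx hy
      rw [Units.val_mul, map_mul, hx, hy, one_mul]
    · intro x _ hx
      rw [Units.val_inv_eq_inv_val, map_inv₀, hx, inv_one]
  have he0 : ∀ n, e n ≠ 0 := by
    intro n
    obtain ⟨u, -, hu⟩ := he n
    rw [← hu]
    exact u.ne_zero
  have hprod : ∀ n, ∏ᶠ v : FinitePlace K, v (e n) = ∏ v ∈ S, v (e n) := by
    intro n
    refine finprod_eq_prod_of_mulSupport_subset _ fun v hv => ?_
    by_contra h1
    obtain ⟨u, hu, hun⟩ := he n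
    apply hv
    show v (e n) = 1
    rw [← hun]
    exact hout v h1 u hu
  -- the archimedean factor
  have harch : ∀ n, 0 ≤ c n → Real.exp (N n * c n) ≤ ∏ w : InfinitePlace K, w (e n) ^ w.mult := by
    intro n hn
    obtain ⟨w0⟩ : Nonempty (InfinitePlace K) := inferInstance
    have h1 : ∏ w : InfinitePlace K, (if w = w0 then Real.exp (N n * c n) else 1) =
        Real.exp (N n * c n) := by
      rw [Finset.prod_ite_eq' Finset.univ w0, if_pos (Finset.mem_univ _)]
    rw [← h1]
    have hge : 1 ≤ Real.exp (N n * c n) := Real.one_le_exp (mul_nonneg (hN n).le hn)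
    refine Finset.prod_le_prod (fun w _ => ?_) fun w _ => ?_
    · split_ifs <;> positivity
    · have h2 : Real.exp (N n * c n) ≤ w (e n) := by
        rw [← InfinitePlace.norm_embedding_eq]
        exact hφ _ n
      have h3 : w (e n) ≤ w (e n) ^ w.mult :=
        le_self_pow₀ (hge.trans h2) w.mult_ne_zero
      split_ifs
      · exact h2.trans h3
      · exact (hge.trans h2).trans h3
  -- a large index
  obtain ⟨n, hn⟩ := (hc.eventually (Filter.eventually_ge_atTop (max 0 (∑ v ∈ S, C v + 1)))).exists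
  have hn0 : 0 ≤ c n := (le_max_left _ _).trans hn
  have hn1 : ∑ v ∈ S, C v + 1 ≤ c n := (le_max_right _ _).trans hn
  have h1 := NumberField.prod_abs_eq_one (he0 n)
  rw [hprod n] at h1
  have h2 := harch n hn0
  have h3 : Real.exp (-(∑ v ∈ S, C v) * N n) ≤ ∏ v ∈ S, v (e n) := by
    have h4 : Real.exp (-(∑ v ∈ S, C v) * N n) = ∏ v ∈ S, Real.exp (-(C v * N n)) := by
      rw [← Real.exp_sum]
      congr 1
      rw [← Finset.sum_neg_distrib, Finset.sum_mul]
      exact Finset.sum_congr rfl fun v _ => by ring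
    rw [h4]
    exact Finset.prod_le_prod (fun v _ => (Real.exp_pos _).le) fun v _ => (hC v n).le
  have h5 : Real.exp (-(∑ v ∈ S, C v) * N n) * Real.exp (N n * c n) ≤ 1 := by
    rw [← h1]
    exact (mul_comm _ _).trans_le
      (mul_le_mul h2 h3 (Real.exp_pos _).le ((Real.exp_pos _).le.trans h2))
  rw [← Real.exp_add, Real.exp_le_one_iff] at h5
  have h6 := hN n
  nlinarith

end Pool.Agent.H707.PCF
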